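import Mathlib

set_option autoImplicit false
open Classical

namespace Pool.Agent.H.MP_a6415b_co

variable {V : Type}

noncomputable def ct (l : List V) (v : V) : ℕ := l.count v

theorem ct_append (l l' : List V) (v : V) : ct (l ++ l') v = ct l v + ct l' v :=
  List.count_append

theorem ct_map {W : Type} (f : V → W) (hf : Function.Injective f) (l : List V) (v : V) :
    ct (l.map f) (f v) = ct l v := List.count_map_of_injective _ _ hf _

theorem ct_zero (l : List V) (v : V) (h : v ∉ l) : ct l v = 0 :=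
  List.count_eq_zero_of_not_mem h

theorem ct_le (l : List V) (v : V) : ct l v ≤ l.length := List.count_le_length

theorem ct_single (v : V) : ct [v] v = 1 := by simp [ct]

def Sides (G : SimpleGraph V) (l : List V) (s : V → Bool) : Prop :=
  ∀ u ∈ l, ∀ v ∈ l, G.Adj u v → s u ≠ s v

def Good (G : SimpleGraph V) (h : ℕ) (l : List V) : Prop :=
  (∀ v, ct l v ≤ h) ∧ ∃ s, Sides G l s

def Prp (G : SimpleGraph V) (σ : List V → ℕ) (l : List V) : Prop :=
  ∀ a u b v c, l = a ++ u :: (b ++ v :: c) → (u = v ∨ G.Adj u v) →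
    σ (a ++ [u]) ≠ σ (a ++ u :: (b ++ [v]))

def Col (σ : List V → ℕ) (l : List V) (R : Finset V) (k : ℕ) : Prop :=
  ∃ a u c, l = a ++ u :: c ∧ u ∈ R ∧ σ (a ++ [u]) = k

def P (j : ℕ) (G : SimpleGraph V) : Prop :=
  ∀ (h : ℕ) (σ : List V → ℕ), (∀ l, Good G h l → Prp G σ l) →
    ∃ (l : List V) (s : V → Bool) (R : Finset V) (U : Finset ℕ),
      (∀ v, ct l v ≤ h) ∧ Sides G l s ∧ (∀ u ∈ R, s u = true) ∧
      (∀ k ∈ U, Col σ l R k) ∧ j * h ≤ 2 * U.card

def rel (G : SimpleGraph V) : V ⊕ V ⊕ Finset V → V ⊕ V ⊕ Finset V → Prop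
  | Sum.inl a, Sum.inl b => G.Adj a b
  | Sum.inr (Sum.inl a), Sum.inr (Sum.inl b) => G.Adj a b
  | Sum.inr (Sum.inl a), Sum.inr (Sum.inr A) => a ∈ A
  | Sum.inr (Sum.inr A), Sum.inr (Sum.inl a) => a ∈ A
  | _, _ => False

def step (G : SimpleGraph V) : SimpleGraph (V ⊕ V ⊕ Finset V) where
  Adj := rel G
  symm := ⟨by
    rintro (a | a | a) (b | b | b) h <;> simp only [rel] at h ⊢ <;>
      first | exact h.symm | exact h⟩
  loopless := ⟨by
    rintro (a | a | a) h <;> simp only [rel] at h <;> exact G.irrefl h⟩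

abbrev f1 (a : V) : V ⊕ V ⊕ Finset V := Sum.inl a
abbrev f2 (a : V) : V ⊕ V ⊕ Finset V := Sum.inr (Sum.inl a)
abbrev zz (A : Finset V) : V ⊕ V ⊕ Finset V := Sum.inr (Sum.inr A)

def sd (s1 s2 : V → Bool) (b : Bool) : V ⊕ V ⊕ Finset V → Bool
  | Sum.inl a => s1 a
  | Sum.inr (Sum.inl a) => xor b (s2 a)
  | Sum.inr (Sum.inr _) => b

theorem cnt (h m : ℕ) (l1 l2 : List V) (A : Finset V) (h1 : ∀ v, ct l1 v ≤ h)
    (h2 : ∀ v, ct l2 v ≤ h) (hm : m ≤ h) (x : V ⊕ V ⊕ Finset V) :
    ct (l1.map f1 ++ (l2.map f2 ++ List.replicate m (zz A))) x ≤ h := by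
  have i1 : Function.Injective (f1 : V → _) := Sum.inl_injective
  have i2 : Function.Injective (f2 : V → _) := Sum.inr_injective.comp Sum.inl_injective
  rw [ct_append, ct_append]
  rcases x with a | a | a
  · rw [ct_map _ i1, ct_zero (l2.map f2) _ (by simp),
      ct_zero (List.replicate _ _) _ (by simp [List.mem_replicate])]
    exact h1 a
  · rw [ct_map _ i2, ct_zero (l1.map f1) _ (by simp),
      ct_zero (List.replicate _ _) _ (by simp [List.mem_replicate])]
    simpa using h2 a
  · rw [ct_zero (l1.map f1) _ (by simp), ct_zero (l2.map f2) _ (by simp)]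
    have := ct_le (List.replicate m (zz A)) (Sum.inr (Sum.inr a))
    simp only [List.length_replicate] at this
    omega

theorem sides (G : SimpleGraph V) (m : ℕ) (l1 l2 : List V) (A : Finset V) (s1 s2 : V → Bool)
    (b : Bool) (h1 : Sides G l1 s1) (h2 : Sides G l2 s2) (hA : ∀ u ∈ A, s2 u = true) :
    Sides (step G) (l1.map f1 ++ (l2.map f2 ++ List.replicate m (zz A))) (sd s1 s2 b) := by
  intro u hu v hv huv
  simp only [List.mem_append, List.mem_map, List.mem_replicate] at hu hv
  change rel G u v at huv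
  rcases hu with ⟨x, hx, rfl⟩ | ⟨x, hx, rfl⟩ | ⟨-, rfl⟩ <;>
    rcases hv with ⟨y, hy, rfl⟩ | ⟨y, hy, rfl⟩ | ⟨-, rfl⟩ <;> simp only [rel] at huv
  · exact h1 x hx y hy huv
  · have := h2 x hx y hy huv
    simp only [sd]
    cases b <;> simpa using this
  · simp only [sd, hA x huv]
    cases b <;> simp
  · simp only [sd, hA y huv]
    cases b <;> simp

theorem P_step (j : ℕ) (G : SimpleGraph V) (hG : P j G) : P (j + 1) (step G) := by
  intro h σ hσ
  obtain ⟨l1, s1, R1, U1, c1, d1, r1, k1, n1⟩ := hG h (fun l => σ (l.map f1)) (by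
    rintro l ⟨hc, s, hs⟩ a u b v c e huv
    have hg : Good (step G) h (l.map f1 ++ (([] : List V).map f2 ++ List.replicate 0 (zz ∅))) :=
      ⟨cnt h 0 l [] ∅ hc (by simp [ct]) (Nat.zero_le _),
        _, sides G 0 l [] ∅ s s true hs (by intro u hu; simp at hu) (by simp)⟩
    have := hσ _ hg (a.map f1) (f1 u) (b.map f1) (f1 v) (c.map f1) (by simp [e])
      (huv.imp (fun h => by rw [h]) (fun h => h))
    simpa using this)
  obtain ⟨l2, s2, R2, U2, c2, d2, r2, k2, n2⟩ := hG h (fun l => σ (l1.map f1 ++ l.map f2)) (by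
    rintro l ⟨hc, s, hs⟩ a u b v c e huv
    have hg : Good (step G) h (l1.map f1 ++ (l.map f2 ++ List.replicate 0 (zz ∅))) :=
      ⟨cnt h 0 l1 l ∅ c1 hc (Nat.zero_le _), _, sides G 0 l1 l ∅ s1 s true d1 hs (by simp)⟩
    have := hσ _ hg (l1.map f1 ++ a.map f2) (f2 u) (b.map f2) (f2 v) (c.map f2) (by simp [e])
      (huv.imp (fun h => by rw [h]) (fun h => h))
    simpa using this)
  have K1 : ∀ (t : List (V ⊕ V ⊕ Finset V)) (R : Finset (V ⊕ V ⊕ Finset V)),
      (∀ u ∈ R1, f1 u ∈ R) → ∀ k ∈ U1, Col σ (l1.map f1 ++ t) R k := by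
    intro t R hR k hk
    obtain ⟨a, u, c, e, hu, hk'⟩ := k1 k hk
    exact ⟨a.map f1, f1 u, c.map f1 ++ t, by simp [e], hR u hu, by simpa using hk'⟩
  by_cases hc : (j + 1) * h ≤ 2 * (U1 ∪ U2).card
  · refine ⟨l1.map f1 ++ (l2.map f2 ++ List.replicate 0 (zz ∅)), sd s1 s2 false,
      R1.image f1 ∪ R2.image f2, U1 ∪ U2, cnt h 0 l1 l2 ∅ c1 c2 (Nat.zero_le _),
      sides G 0 l1 l2 ∅ s1 s2 false d1 d2 (by simp), ?_, ?_, hc⟩
    · intro u hu
      simp only [Finset.mem_union, Finset.mem_image] at hu
      rcases hu with ⟨x, hx, rfl⟩ | ⟨x, hx, rfl⟩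
      · exact r1 x hx
      · simp [sd, r2 x hx]
    · intro k hk
      rcases Finset.mem_union.1 hk with hk | hk
      · exact K1 _ _ (fun u hu => Finset.mem_union_left _ (Finset.mem_image_of_mem _ hu)) k hk
      · obtain ⟨a, u, c, e, hu, hk'⟩ := k2 k hk
        exact ⟨l1.map f1 ++ a.map f2, f2 u, c.map f2, by simp [e],
          Finset.mem_union_right _ (Finset.mem_image_of_mem _ hu), by simpa using hk'⟩
  · set L := l1.map f1 ++ l2.map f2 with hL
    set z := zz R2 with hz
    have hg : Good (step G) h (l1.map f1 ++ (l2.map f2 ++ List.replicate h z)) :=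
      ⟨cnt h h l1 l2 R2 c1 c2 le_rfl, _, sides G h l1 l2 R2 s1 s2 true d1 d2 r2⟩
    have hp := hσ _ hg
    set g : ℕ → ℕ := fun i => σ (L ++ List.replicate i z ++ [z]) with hgdef
    have rep : ∀ i, i < h → List.replicate h z =
        List.replicate i z ++ z :: List.replicate (h - i - 1) z := by
      intro i hi
      rw [← List.replicate_succ, ← List.replicate_add]
      congr 1; omega
    have ginj : ∀ i i', i < i' → i' < h → g i ≠ g i' := by
      intro i i' hii hi'
      have e1 : List.replicate i' z = List.replicate i z ++ z :: List.replicate (i' - i - 1) z := by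
        rw [← List.replicate_succ, ← List.replicate_add]
        congr 1; omega
      have := hp (L ++ List.replicate i z) z (List.replicate (i' - i - 1) z) z
        (List.replicate (h - i' - 1) z) (by rw [rep i' hi', e1, hL]; simp) (Or.inl rfl)
      simp only [hgdef]
      rw [e1]
      simpa using this
    have gU2 : ∀ i, i < h → g i ∉ U2 := by
      intro i hi hk
      obtain ⟨a, u, c, e, hu, hk'⟩ := k2 _ hk
      have := hp (l1.map f1 ++ a.map f2) (f2 u) (c.map f2 ++ List.replicate i z) z
        (List.replicate (h - i - 1) z) (by rw [rep i hi, e]; simp) (Or.inr hu)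
      apply this
      simp only [hgdef, hL, e] at hk'
      simpa using hk'
    set S := (Finset.range h).image g with hS
    have cS : S.card = h := by
      rw [hS, Finset.card_image_of_injOn, Finset.card_range]
      intro i hi i' hi' e
      simp only [Finset.coe_range, Set.mem_Iio] at hi hi'
      rcases lt_trichotomy i i' with h1 | h1 | h1
      · exact absurd e (ginj i i' h1 hi')
      · exact h1
      · exact absurd e.symm (ginj i' i h1 hi)
    refine ⟨l1.map f1 ++ (l2.map f2 ++ List.replicate h z), sd s1 s2 true,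
      insert z (R1.image f1), U1 ∪ S, hg.1, sides G h l1 l2 R2 s1 s2 true d1 d2 r2, ?_, ?_, ?_⟩
    · intro u hu
      simp only [Finset.mem_insert, Finset.mem_image] at hu
      rcases hu with rfl | ⟨x, hx, rfl⟩
      · rfl
      · exact r1 x hx
    · intro k hk
      rcases Finset.mem_union.1 hk with hk | hk
      · exact K1 _ _ (fun u hu => Finset.mem_insert_of_mem (Finset.mem_image_of_mem _ hu)) k hk
      · obtain ⟨i, hi, rfl⟩ := Finset.mem_image.1 hk
        refine ⟨L ++ List.replicate i z, z, List.replicate (h - i - 1) z, ?_,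
          Finset.mem_insert_self _ _, rfl⟩
        rw [rep i (Finset.mem_range.1 hi), hL]; simp
    · have e1 := Finset.card_union_add_card_inter U1 S
      have e2 : (U1 ∩ S).card + U2.card ≤ (U1 ∪ U2).card := by
        rw [← Finset.card_union_of_disjoint]
        · exact Finset.card_le_card (Finset.union_subset_union Finset.inter_subset_left le_rfl)
        · rw [Finset.disjoint_left]
          intro k hk
          obtain ⟨i, hi, rfl⟩ := Finset.mem_image.1 (Finset.mem_inter.1 hk).2
          exact gU2 i (Finset.mem_range.1 hi)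
      have e3 : (j + 1) * h = j * h + h := by ring
      omega

theorem exists_P (j : ℕ) : ∃ (V : Type) (_ : Fintype V) (G : SimpleGraph V), P j G := by
  induction j with
  | zero =>
    refine ⟨Unit, inferInstance, ⊥, fun h σ _ => ⟨[], fun _ => true, ∅, ∅, by simp [ct], ?_, by simp,
      by simp, by simp⟩⟩
    intro u hu; simp at hu
  | succ j ih =>
    obtain ⟨V, _, G, hG⟩ := ih
    exact ⟨V ⊕ V ⊕ Finset V, inferInstance, step G, P_step j G hG⟩

theorem P_equiv {W : Type} (e : V ≃ W) (j : ℕ) (G : SimpleGraph V) (hG : P j G) :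
    P j (G.comap e.symm) := by
  intro h σ hσ
  obtain ⟨l, s, R, U, c, d, r, k, n⟩ := hG h (fun l => σ (l.map e)) (by
    rintro l ⟨hc, s, hs⟩ a u b v c el huv
    have hg : Good (G.comap e.symm) h (l.map e) := by
      refine ⟨fun v => ?_, fun x => s (e.symm x), ?_⟩
      · obtain ⟨v, rfl⟩ := e.surjective v
        rw [ct_map _ e.injective]; exact hc v
      · intro u hu v hv huv
        obtain ⟨x, hx, rfl⟩ := List.mem_map.1 hu
        obtain ⟨y, hy, rfl⟩ := List.mem_map.1 hv
        simpa using hs x hx y hy (by simpa using huv)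
    have := hσ _ hg (a.map e) (e u) (b.map e) (e v) (c.map e) (by simp [el])
      (huv.imp (fun h => by rw [h]) (fun h => by simpa using h))
    simpa using this)
  refine ⟨l.map e, fun x => s (e.symm x), R.map e.toEmbedding, U, fun v => ?_, ?_, ?_, ?_, n⟩
  · obtain ⟨v, rfl⟩ := e.surjective v
    rw [ct_map _ e.injective]; exact c v
  · intro u hu v hv huv
    obtain ⟨x, hx, rfl⟩ := List.mem_map.1 hu
    obtain ⟨y, hy, rfl⟩ := List.mem_map.1 hv
    simpa using d x hx y hy (by simpa using huv)
  · intro u hu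
    obtain ⟨x, hx, rfl⟩ := Finset.mem_map.1 hu
    simpa using r x hx
  · intro k' hk
    obtain ⟨a, u, c, el, hu, hk'⟩ := k k' hk
    exact ⟨a.map e, e u, c.map e, by simp [el], Finset.mem_map_of_mem _ hu, by simpa using hk'⟩

theorem exists_P_fin (j : ℕ) : ∃ (n : ℕ) (G : SimpleGraph (Fin n)), P j G := by
  obtain ⟨V, _, G, hG⟩ := exists_P j
  exact ⟨_, _, P_equiv (Fintype.equivFin V) j G hG⟩

theorem split_two (l : List V) (i j : Fin l.length) (hij : i < j) :
    l.take j = l.take i ++ l.get i :: ((l.take j).drop (i + 1)) := by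
  have hi : (i : ℕ) < (l.take j).length := by
    rw [List.length_take]; have := j.2; have : (i : ℕ) < j := hij; omega
  conv_lhs => rw [← List.take_append_drop i (l.take j), List.drop_eq_getElem_cons hi]
  rw [List.take_take, min_eq_left (show (i : ℕ) ≤ j from le_of_lt hij)]
  simp

theorem good_col (G : SimpleGraph V) (h : ℕ) (l : List V) (hg : Good G h l) :
    (SimpleGraph.fromRel fun i j : Fin l.length =>
      l.get i = l.get j ∨ G.Adj (l.get i) (l.get j)).Colorable (2 * h) := by
  obtain ⟨hc, s, hs⟩ := hg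
  have lt : ∀ i : Fin l.length, ct (l.take i) (l.get i) < h := by
    intro i
    have e : l = l.take i ++ ([l.get i] ++ l.drop (i + 1)) := by simp
    have := hc (l.get i)
    have e2 := congrArg (fun t => ct t (l.get i)) e
    simp only [ct_append, ct_single] at e2
    omega
  have mono : ∀ i j : Fin l.length, i < j → l.get i = l.get j →
      ct (l.take i) (l.get i) < ct (l.take j) (l.get j) := by
    intro i j hij e
    rw [split_two l i j hij, ← e, ← List.singleton_append, ct_append, ct_append, ct_single]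
    omega
  have C : (SimpleGraph.fromRel fun i j : Fin l.length =>
      l.get i = l.get j ∨ G.Adj (l.get i) (l.get j)).Coloring (Bool × Fin h) :=
    SimpleGraph.Coloring.mk (fun i => (s (l.get i), ⟨_, lt i⟩)) (by
      intro i j hij e
      rw [SimpleGraph.fromRel_adj] at hij
      simp only [Prod.mk.injEq, Fin.mk.injEq] at e
      have h1 : l.get i = l.get j := by
        rcases hij.2 with (h1 | h1) | (h1 | h1)
        · exact h1
        · exact absurd e.1 (hs _ (List.get_mem _ _) _ (List.get_mem _ _) h1)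
        · exact h1.symm
        · exact absurd e.1.symm (hs _ (List.get_mem _ _) _ (List.get_mem _ _) h1)
      rcases lt_or_gt_of_ne hij.1 with h2 | h2
      · exact absurd e.2 (mono i j h2 h1).ne
      · exact absurd e.2.symm (mono j i h2 h1.symm).ne)
  simpa using C.colorable

end Pool.Agent.H.MP_a6415b_co
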